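import Pool.Agent.Run7.h893.DR.Conn

/-!
# The symplectic group and the identity component of the orthogonal group are generated by curves
-/

set_option autoImplicit false

open Matrix Pool.Agent.Y119.HY
open Run7.h893.HO (rf om_symm om_add_left om_smul_left om_zero_left rf_mulVec rf_sq rf_conj rf_isom gen_rf om_isom)

namespace Run7.h893.DR

variable {n : ℕ} {J : Matrix (Fin n) (Fin n) ℂ}

/-! ### the symplectic group -/

/-- the monoid generated by the transvections -/
noncomputable def Es (J : Matrix (Fin n) (Fin n) ℂ) : Submonoid (Matrix (Fin n) (Fin n) ℂ) :=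
  Submonoid.closure {τ | ∃ (u : Fin n → ℂ) (s : ℂ), τ = tv J u s}

/-- the transvection with polynomial entries -/
noncomputable def tvp (J : Matrix (Fin n) (Fin n) ℂ) (u : Fin n → ℂ) (s : ℂ) : Matrix (Fin n) (Fin n) (Polynomial ℂ) :=
  Matrix.of fun i j => (if i = j then 1 else 0) + Polynomial.C (s * (u i * (u ᵥ* J) j)) * Polynomial.X

lemma tvp_eval (u : Fin n → ℂ) (s c : ℂ) : (tvp J u s).map (Polynomial.eval c) = tv J u (s * c) := by
  ext i j
  unfold tvp tv
  rw [Matrix.map_apply, Matrix.of_apply, Matrix.add_apply, Matrix.one_apply, Matrix.smul_apply, vecMulVec_apply,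
    Polynomial.eval_add, Polynomial.eval_mul, Polynomial.eval_C, Polynomial.eval_X]
  congr 1
  · split_ifs <;> simp
  · rw [smul_eq_mul]
    ring

lemma tv_zero' (u : Fin n → ℂ) : tv J u 0 = 1 := by
  unfold tv
  rw [zero_smul, add_zero]

lemma tv_mul (hJ : J.transpose = -J) (u : Fin n → ℂ) (s t : ℂ) : tv J u s * tv J u t = tv J u (s + t) := by
  apply Matrix.toLin'.injective
  refine LinearMap.ext fun x => ?_
  rw [toLin'_apply, toLin'_apply, ← mulVec_mulVec, tv_mulVec, tv_mulVec, tv_mulVec, om_add, om_smul, om_self hJ, mul_zero,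
    add_zero, add_assoc, ← add_smul]
  congr 2
  ring

theorem CG_Es (hJ : J.transpose = -J) : CG (Es J) where
  gen := by
    refine ⟨_, rfl, ?_⟩
    rintro τ ⟨u, s, rfl⟩
    refine ⟨tvp J u s, 1, by simp, by simp, ?_, ?_, fun c _ => ?_⟩
    · rw [tvp_eval, Polynomial.eval_one, inv_one, one_smul, mul_zero, tv_zero']
    · rw [tvp_eval, Polynomial.eval_one, inv_one, one_smul, mul_one]
    · rw [tvp_eval, Polynomial.eval_one, inv_one, one_smul]
      exact Submonoid.subset_closure ⟨u, s * c, rfl⟩
  inv := by
    intro g hg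
    unfold Es at hg
    induction hg using Submonoid.closure_induction with
    | mem g hg =>
      obtain ⟨u, s, rfl⟩ := hg
      exact ⟨tv J u (-s), Submonoid.subset_closure ⟨u, -s, rfl⟩, by rw [tv_mul hJ, add_neg_cancel, tv_zero']⟩
    | one => exact ⟨1, one_mem _, mul_one _⟩
    | mul a b _ _ ha hb =>
      obtain ⟨a', ha', h1⟩ := ha
      obtain ⟨b', hb', h2⟩ := hb
      exact ⟨b' * a', mul_mem hb' ha', by rw [mul_assoc, ← mul_assoc b, h2, one_mul, h1]⟩

/-- the isometries are generated by the transvections -/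
theorem mem_Es (hJ : J.transpose = -J) (hdet : J.det ≠ 0) {g : Matrix (Fin n) (Fin n) ℂ} (hg : g.transpose * J * g = J) :
    g ∈ Es J := by
  set ω : (Fin n → ℂ) →ₗ[ℂ] (Fin n → ℂ) →ₗ[ℂ] ℂ := Matrix.toLinearMap₂' ℂ J with hω
  have hωa : ∀ u v, ω u v = om J u v := by
    intro u v
    rw [hω, Matrix.toLinearMap₂'_apply']
    rfl
  have h0 : ∀ v, ω v v = 0 := fun v => by rw [hωa, om_self hJ]
  have hnd : ∀ u, (∀ v, ω u v = 0) → u = 0 := by
    intro u hu
    have h1 : ∀ w : Fin n → ℂ, u ⬝ᵥ w = 0 := by
      intro w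
      have h2 := hu (J⁻¹ *ᵥ w)
      rw [hωa] at h2
      unfold om at h2
      rw [mulVec_mulVec, mul_nonsing_inv _ (Ne.isUnit hdet), one_mulVec] at h2
      exact h2
    funext i
    have := h1 (Pi.single i 1)
    rwa [dotProduct_single_one] at this
  have hpres : ∀ u v, ω (Matrix.toLin' g u) (Matrix.toLin' g v) = ω u v := by
    intro u v
    rw [hωa, hωa, toLin'_apply, toLin'_apply]
    unfold om
    rw [mulVec_mulVec, ← vecMul_transpose, ← dotProduct_mulVec, mulVec_mulVec, ← Matrix.mul_assoc, hg]
  have hmem := Pool.Agent.W948.ZC.TR.aux ℂ _ (Fin n → ℂ) ω rfl h0 hnd (Matrix.toLin' g) hpres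
  have key : ∀ T ∈ Pool.Agent.W948.ZC.TR.G ω, LinearMap.toMatrix' T ∈ Es J := by
    intro T hT
    unfold Pool.Agent.W948.ZC.TR.G at hT
    induction hT using Submonoid.closure_induction with
    | mem T h =>
      obtain ⟨c, u, rfl⟩ := h
      have h1 : LinearMap.toMatrix' (1 + c • (ω u).smulRight u) = tv J u c := by
        apply (Matrix.toLin'.injective)
        rw [toLin'_toMatrix']
        ext x i
        have h2 : (Matrix.toLin' (tv J u c)) (Pi.single x 1) = tv J u c *ᵥ (Pi.single x 1) := rfl
        rw [LinearMap.comp_apply, LinearMap.comp_apply, LinearMap.single_apply, h2, tv_mulVec, ← hωa]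
        simp [LinearMap.add_apply, mul_assoc]
      rw [h1]
      exact Submonoid.subset_closure ⟨u, c, rfl⟩
    | one =>
      have : LinearMap.toMatrix' (1 : Module.End ℂ (Fin n → ℂ)) = 1 := LinearMap.toMatrix'_id
      rw [this]
      exact one_mem _
    | mul A B _ _ hA hB =>
      have : LinearMap.toMatrix' (A * B) = LinearMap.toMatrix' A * LinearMap.toMatrix' B :=
        LinearMap.toMatrix'_mul A B
      rw [this]
      exact mul_mem hA hB
  have := key _ hmem
  rwa [LinearMap.toMatrix'_toLin'] at this

/-! ### the orthogonal group -/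

/-- the monoid generated by the products of two reflections -/
noncomputable def Eo (J : Matrix (Fin n) (Fin n) ℂ) : Submonoid (Matrix (Fin n) (Fin n) ℂ) :=
  Submonoid.closure {τ | ∃ x y : Fin n → ℂ, om J x x ≠ 0 ∧ om J y y ≠ 0 ∧ τ = rf J x * rf J y}

lemma rf_formula (w : Fin n → ℂ) : rf J w = 1 - (2 / om J w w) • vecMulVec w (w ᵥ* J) := by
  unfold rf tv
  rw [sub_eq_add_neg, ← neg_smul]
  congr 2
  ring

/-- the line -/
noncomputable def lin (x y : Fin n → ℂ) (i : Fin n) : Polynomial ℂ := Polynomial.C (x i) + Polynomial.C (y i - x i) * Polynomial.X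

lemma lin_eval (x y : Fin n → ℂ) (c : ℂ) : (fun i => (lin x y i).eval c) = x + c • (y - x) := by
  funext i
  unfold lin
  simp only [Polynomial.eval_add, Polynomial.eval_mul, Polynomial.eval_C, Polynomial.eval_X, Pi.add_apply, Pi.smul_apply,
    Pi.sub_apply, smul_eq_mul]
  ring

/-- the form on polynomial vectors -/
noncomputable def omp (J : Matrix (Fin n) (Fin n) ℂ) (v : Fin n → Polynomial ℂ) : Polynomial ℂ :=
  ∑ i, v i * ∑ j, Polynomial.C (J i j) * v j

lemma omp_eval (v : Fin n → Polynomial ℂ) (c : ℂ) :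
    (omp J v).eval c = om J (fun i => (v i).eval c) (fun i => (v i).eval c) := by
  unfold omp om dotProduct mulVec dotProduct
  simp only [Polynomial.eval_finsetSum, Polynomial.eval_mul, Polynomial.eval_C]

theorem CG_Eo (hJ : J.transpose = J) : CG (Eo J) where
  gen := by
    refine ⟨_, rfl, ?_⟩
    rintro τ ⟨x, y, hx, hy, rfl⟩
    set v := lin x y with hv
    set A := omp J v with hA
    set M : Matrix (Fin n) (Fin n) (Polynomial ℂ) := (rf J x).map Polynomial.C *
      Matrix.of fun i j => (if i = j then A else 0) - Polynomial.C 2 * (v i * ∑ l, v l * Polynomial.C (J l j)) with hM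
    have hAe : ∀ c, A.eval c = om J (x + c • (y - x)) (x + c • (y - x)) := by
      intro c
      rw [hA, omp_eval, hv, lin_eval]
    have hMe : ∀ c, A.eval c ≠ 0 → (A.eval c)⁻¹ • M.map (Polynomial.eval c) = rf J x * rf J (x + c • (y - x)) := by
      intro c hc
      have h1 : M.map (Polynomial.eval c) = rf J x * (A.eval c • rf J (x + c • (y - x))) := by
        rw [hM, map_mul_eval, map_C_eval]
        congr 1
        ext i j
        rw [Matrix.map_apply, Matrix.of_apply, rf_formula, Matrix.smul_apply, Matrix.sub_apply, Matrix.one_apply,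
          Matrix.smul_apply, vecMulVec_apply, smul_eq_mul, smul_eq_mul, ← hAe]
        have h2 : ∀ l, (v l).eval c = (x + c • (y - x)) l := fun l => by rw [hv]; exact congrFun (lin_eval x y c) l
        rw [Polynomial.eval_sub, Polynomial.eval_mul, Polynomial.eval_mul, Polynomial.eval_C, Polynomial.eval_finsetSum, h2]
        have h3 : ∑ l, (v l * Polynomial.C (J l j)).eval c = ((x + c • (y - x)) ᵥ* J) j := by
          unfold vecMul dotProduct
          refine Finset.sum_congr rfl fun l _ => ?_
          rw [Polynomial.eval_mul, Polynomial.eval_C, h2]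
        rw [h3, mul_sub]
        congr 1
        · split_ifs
          · rw [mul_one]
          · rw [mul_zero, Polynomial.eval_zero]
        · field_simp
      rw [h1, Matrix.mul_smul, smul_smul, inv_mul_cancel₀ hc, one_smul]
    have h0 : A.eval 0 ≠ 0 := by rw [hAe, zero_smul, add_zero]; exact hx
    have h1 : A.eval 1 ≠ 0 := by rw [hAe, one_smul, add_sub_cancel]; exact hy
    refine ⟨M, A, h0, h1, ?_, ?_, fun c hc => ?_⟩
    · rw [hMe 0 h0, zero_smul, add_zero, rf_sq hx]
    · rw [hMe 1 h1, one_smul, add_sub_cancel]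
    · rw [hMe c hc]
      exact Submonoid.subset_closure ⟨x, _, hx, by rw [← hAe]; exact hc, rfl⟩
  inv := by
    intro g hg
    unfold Eo at hg
    induction hg using Submonoid.closure_induction with
    | mem g hg =>
      obtain ⟨x, y, hx, hy, rfl⟩ := hg
      refine ⟨rf J y * rf J x, Submonoid.subset_closure ⟨y, x, hy, hx, rfl⟩, ?_⟩
      rw [mul_assoc, ← mul_assoc (rf J y), rf_sq hy, one_mul, rf_sq hx]
    | one => exact ⟨1, one_mem _, mul_one _⟩
    | mul a b _ _ ha hb =>
      obtain ⟨a', ha', h1⟩ := ha
      obtain ⟨b', hb', h2⟩ := hb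
      exact ⟨b' * a', mul_mem hb' ha', by rw [mul_assoc, ← mul_assoc b, h2, one_mul, h1]⟩

lemma rf_det {w : Fin n → ℂ} (hw : om J w w ≠ 0) : (rf J w).det = -1 := by
  rw [rf_formula, sub_eq_add_neg, ← neg_smul, ← smul_vecMulVec, Matrix.vecMulVec_eq Unit,
    Matrix.det_one_add_replicateCol_mul_replicateRow]
  have h1 : (w ᵥ* J) ⬝ᵥ (-(2 / om J w w)) • w = -2 := by
    rw [dotProduct_smul, ← om_eq, smul_eq_mul]
    field_simp
  rw [h1]
  norm_num

/-- an isometry of determinant one is a product of pairs of reflections -/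
theorem mem_Eo (hJ : J.transpose = J) (hdet : J.det ≠ 0) {g : Matrix (Fin n) (Fin n) ℂ} (hg : g.transpose * J * g = J)
    (hg1 : g.det = 1) : g ∈ Eo J := by
  classical
  by_cases hex : ∃ x : Fin n → ℂ, om J x x ≠ 0
  swap
  · push Not at hex
    have h1 := gen_rf hJ hdet ⊥ (fun x hx => absurd (hex x) hx) g hg
    rw [Submonoid.mem_bot] at h1
    rw [h1]
    exact one_mem _
  obtain ⟨x0, hx0⟩ := hex
  set R := rf J x0 with hR
  have hRR : R * R = 1 := rf_sq hx0
  -- conjugation by the reflection
  have hconj : ∀ a ∈ Eo J, R * a * R ∈ Eo J := by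
    intro a ha
    unfold Eo at ha
    induction ha using Submonoid.closure_induction with
    | mem a ha =>
      obtain ⟨x, y, hx, hy, rfl⟩ := ha
      have e : R * (rf J x * rf J y) * R = (R * rf J x) * (rf J y * R) := by simp only [mul_assoc]
      rw [e]
      exact mul_mem (Submonoid.subset_closure ⟨x0, x, hx0, hx, rfl⟩) (Submonoid.subset_closure ⟨y, x0, hy, hx0, rfl⟩)
    | one =>
      rw [mul_one, hRR]
      exact one_mem _
    | mul a b _ _ ha hb =>
      have e : R * (a * b) * R = (R * a * R) * (R * b * R) := by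
        calc R * (a * b) * R = R * a * 1 * b * R := by rw [mul_one]; simp only [mul_assoc]
          _ = _ := by rw [← hRR]; simp only [mul_assoc]
      rw [e]
      exact mul_mem ha hb
  let S : Submonoid (Matrix (Fin n) (Fin n) ℂ) :=
    { carrier := {a | a ∈ Eo J ∨ R * a ∈ Eo J}
      one_mem' := Or.inl (one_mem _)
      mul_mem' := by
        rintro a b (ha | ha) (hb | hb)
        · exact Or.inl (mul_mem ha hb)
        · right
          have e : R * (a * b) = (R * a * R) * (R * b) := by
            calc R * (a * b) = R * a * 1 * b := by rw [mul_one]; simp only [mul_assoc]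
              _ = _ := by rw [← hRR]; simp only [mul_assoc]
          rw [e]
          exact mul_mem (hconj a ha) hb
        · right
          rw [← mul_assoc]
          exact mul_mem ha hb
        · left
          have e : a * b = (R * (R * a) * R) * (R * b) := by
            calc a * b = (R * R) * a * (R * R) * b := by rw [hRR, one_mul, mul_one]
              _ = _ := by simp only [mul_assoc]
          rw [e]
          exact mul_mem (hconj _ ha) hb }
  have hmem : g ∈ S := gen_rf hJ hdet S (fun x hx => Or.inr (Submonoid.subset_closure ⟨x0, x, hx0, hx, rfl⟩)) g hg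
  rcases hmem with h | h
  · exact h
  · exfalso
    have hd : ∀ a ∈ Eo J, a.det = 1 := by
      intro a ha
      unfold Eo at ha
      induction ha using Submonoid.closure_induction with
      | mem a ha =>
        obtain ⟨x, y, hx, hy, rfl⟩ := ha
        rw [det_mul, rf_det hx, rf_det hy]
        norm_num
      | one => exact det_one
      | mul a b _ _ ha hb => rw [det_mul, ha, hb, mul_one]
    have h1 := hd _ h
    rw [det_mul, hg1, hR, rf_det hx0] at h1
    norm_num at h1

end Run7.h893.DR
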