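import Pool.Agent.Run7.h893.HO.Inv
import Pool.Agent.Y119.HY.Fin

/-!
# Products of monoids of matrices which are generated by curves through `1` are irreducible
-/

set_option autoImplicit false

open Matrix Pool.Agent.Y119.HY
open Pool.Agent.Y119.HZ (Ix pv)

namespace Run7.h893.DR

variable {k : ℕ} {n : Fin k → ℕ}

/-- tuples of matrices -/
abbrev MT {k : ℕ} (n : Fin k → ℕ) : Type := ∀ i, Matrix (Fin (n i)) (Fin (n i)) ℂ

/-- polynomial functions -/
def IsPoly (F : MT n → ℂ) : Prop := ∃ f : MvPolynomial (Ix n) ℂ, ∀ g, F g = MvPolynomial.eval (pv g) f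

lemma IsPoly.mul {F G : MT n → ℂ} (hF : IsPoly F) (hG : IsPoly G) : IsPoly fun g => F g * G g := by
  obtain ⟨f, hf⟩ := hF
  obtain ⟨h, hh⟩ := hG
  exact ⟨f * h, fun g => by show F g * G g = _; rw [hf, hh, map_mul]⟩

lemma IsPoly.const (c : ℂ) : IsPoly (n := n) fun _ => c := ⟨MvPolynomial.C c, fun g => by rw [MvPolynomial.eval_C]⟩

lemma IsPoly.prod {σ : Type*} (S : Finset σ) {F : σ → MT n → ℂ} (h : ∀ a ∈ S, IsPoly (F a)) :
    IsPoly fun g => ∏ a ∈ S, F a g := by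
  classical
  induction S using Finset.induction_on with
  | empty => simpa using IsPoly.const (n := n) 1
  | insert a S ha ih =>
    have h1 := (h a (Finset.mem_insert_self _ _)).mul (ih fun b hb => h b (Finset.mem_insert_of_mem hb))
    simpa [Finset.prod_insert ha] using h1

/-- translations of polynomial functions -/
lemma IsPoly.trans {F : MT n → ℂ} (hF : IsPoly F) (u h : MT n) : IsPoly fun g => F (u * g * h) := by
  obtain ⟨f, hf⟩ := hF
  refine ⟨MvPolynomial.bind₁ (fun v : Ix n => ∑ c, (∑ d, MvPolynomial.C (u v.1 v.2.1 d) *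
    MvPolynomial.X (⟨v.1, (d, c)⟩ : Ix n)) * MvPolynomial.C (h v.1 c v.2.2)) f, fun g => ?_⟩
  show F (u * g * h) = _
  rw [hf]
  have h1 : (MvPolynomial.eval (pv g)) (MvPolynomial.bind₁ (fun v : Ix n => ∑ c, (∑ d, MvPolynomial.C (u v.1 v.2.1 d) *
    MvPolynomial.X (⟨v.1, (d, c)⟩ : Ix n)) * MvPolynomial.C (h v.1 c v.2.2)) f) =
      MvPolynomial.eval (fun v => MvPolynomial.eval (pv g) (∑ c, (∑ d, MvPolynomial.C (u v.1 v.2.1 d) *
    MvPolynomial.X (⟨v.1, (d, c)⟩ : Ix n)) * MvPolynomial.C (h v.1 c v.2.2))) f := by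
    exact MvPolynomial.eval₂Hom_bind₁ _ _ _ _
  rw [h1]
  congr 1
  congr 1
  funext v
  rw [map_sum]
  show (u v.1 * g v.1 * h v.1) v.2.1 v.2.2 = _
  rw [Matrix.mul_apply]
  refine Finset.sum_congr rfl fun c _ => ?_
  rw [map_mul, map_sum, MvPolynomial.eval_C, Matrix.mul_apply]
  congr 1
  refine Finset.sum_congr rfl fun d _ => ?_
  rw [map_mul, MvPolynomial.eval_C, MvPolynomial.eval_X]
  rfl

/-- polynomial functions on rational curves -/
lemma IsPoly.curve {F : MT n → ℂ} (hF : IsPoly F) (M : ∀ i, Matrix (Fin (n i)) (Fin (n i)) (Polynomial ℂ)) (d : Polynomial ℂ) :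
    ∃ (D : ℕ) (q : Polynomial ℂ), ∀ s, d.eval s ≠ 0 →
      q.eval s = (d.eval s) ^ D * F fun i => (d.eval s)⁻¹ • (M i).map (Polynomial.eval s) := by
  obtain ⟨f, hf⟩ := hF
  have key : ∀ f : MvPolynomial (Ix n) ℂ, ∃ (D : ℕ) (q : Polynomial ℂ), ∀ s, d.eval s ≠ 0 →
      q.eval s = (d.eval s) ^ D * MvPolynomial.eval (pv fun i => (d.eval s)⁻¹ • (M i).map (Polynomial.eval s)) f := by
    intro f
    induction f using MvPolynomial.induction_on with
    | C a => exact ⟨0, Polynomial.C a, fun s _ => by simp⟩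
    | add p r hp hr =>
      obtain ⟨D1, q1, h1⟩ := hp
      obtain ⟨D2, q2, h2⟩ := hr
      refine ⟨D1 + D2, q1 * d ^ D2 + q2 * d ^ D1, fun s hs => ?_⟩
      rw [Polynomial.eval_add, Polynomial.eval_mul, Polynomial.eval_mul, Polynomial.eval_pow, Polynomial.eval_pow,
        h1 s hs, h2 s hs, map_add]
      ring
    | mul_X p v hp =>
      obtain ⟨D1, q1, h1⟩ := hp
      refine ⟨D1 + 1, q1 * M v.1 v.2.1 v.2.2, fun s hs => ?_⟩
      rw [Polynomial.eval_mul, h1 s hs, map_mul, MvPolynomial.eval_X]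
      have h2 : pv (fun i => (d.eval s)⁻¹ • (M i).map (Polynomial.eval s)) v = (d.eval s)⁻¹ * (M v.1 v.2.1 v.2.2).eval s := rfl
      rw [h2, pow_succ]
      field_simp
  obtain ⟨D, q, h⟩ := key f
  exact ⟨D, q, fun s hs => by rw [h s hs, hf]⟩

/-- the elements which connect the nonvanishing loci -/
def good (𝒢 : Submonoid (MT n)) : Submonoid (MT n) where
  carrier := {h | ∀ F G : MT n → ℂ, IsPoly F → IsPoly G → ∀ g ∈ 𝒢, F g ≠ 0 → G (g * h) ≠ 0 → ∃ g' ∈ 𝒢, F g' ≠ 0 ∧ G g' ≠ 0}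
  one_mem' := fun F G _ _ g hg h1 h2 => ⟨g, hg, h1, by rwa [mul_one] at h2⟩
  mul_mem' := by
    intro a b ha hb F G hF hG g hg h1 h2
    obtain ⟨g', hg', h3, h4⟩ := ha F (fun x => G (x * b)) hF (by simpa using hG.trans 1 b) g hg h1 (by rwa [mul_assoc])
    exact hb F G hF hG g' hg' h3 h4

/-- A curve through `1` and `τ`. -/
def Cu {m : ℕ} (E : Submonoid (Matrix (Fin m) (Fin m) ℂ)) (τ : Matrix (Fin m) (Fin m) ℂ) : Prop :=
  ∃ (M : Matrix (Fin m) (Fin m) (Polynomial ℂ)) (d : Polynomial ℂ), d.eval 0 ≠ 0 ∧ d.eval 1 ≠ 0 ∧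
    (d.eval 0)⁻¹ • M.map (Polynomial.eval 0) = 1 ∧ (d.eval 1)⁻¹ • M.map (Polynomial.eval 1) = τ ∧
    ∀ s, d.eval s ≠ 0 → (d.eval s)⁻¹ • M.map (Polynomial.eval s) ∈ E

lemma good_curve (E : ∀ i, Submonoid (Matrix (Fin (n i)) (Fin (n i)) ℂ)) (i : Fin k) {τ : Matrix (Fin (n i)) (Fin (n i)) ℂ}
    (h : Cu (E i) τ) : Pi.mulSingle i τ ∈ good (Submonoid.pi Set.univ E) := by
  classical
  obtain ⟨M, d, h0, h1, h2, h3, h4⟩ := h
  intro F G hF hG g hg hFg hGg
  set M' : ∀ j, Matrix (Fin (n j)) (Fin (n j)) (Polynomial ℂ) :=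
    fun j => if hj : j = i then hj ▸ M else d • (1 : Matrix (Fin (n j)) (Fin (n j)) (Polynomial ℂ)) with hM'
  have hc : ∀ s, d.eval s ≠ 0 → (fun j => (d.eval s)⁻¹ • (M' j).map (Polynomial.eval s)) =
      Pi.mulSingle i ((d.eval s)⁻¹ • M.map (Polynomial.eval s)) := by
    intro s hs
    funext j
    by_cases hj : j = i
    · subst hj
      rw [Pi.mulSingle_eq_same, hM']
      simp
    · rw [Pi.mulSingle_eq_of_ne hj, hM']
      simp only [hj, dite_false]
      ext a b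
      rw [Matrix.smul_apply, Matrix.map_apply, Matrix.smul_apply, smul_eq_mul, smul_eq_mul, Polynomial.eval_mul]
      rw [Matrix.one_apply, Matrix.one_apply]
      split_ifs
      · rw [Polynomial.eval_one, mul_one, inv_mul_cancel₀ hs]
      · simp
  obtain ⟨D1, q1, hq1⟩ := (by simpa using hF.trans g 1 : IsPoly fun x => F (g * x)).curve M' d
  obtain ⟨D2, q2, hq2⟩ := (by simpa using hG.trans g 1 : IsPoly fun x => G (g * x)).curve M' d
  have e1 : q1.eval 0 ≠ 0 := by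
    rw [hq1 0 h0, hc 0 h0, h2, Pi.mulSingle_one, mul_one]
    exact mul_ne_zero (pow_ne_zero _ h0) hFg
  have e2 : q2.eval 1 ≠ 0 := by
    rw [hq2 1 h1, hc 1 h1, h3]
    exact mul_ne_zero (pow_ne_zero _ h1) hGg
  have e3 : q1 * q2 * d ≠ 0 := by
    refine mul_ne_zero (mul_ne_zero ?_ ?_) ?_
    · rintro rfl
      simp at e1
    · rintro rfl
      simp at e2
    · rintro rfl
      simp at h0
  obtain ⟨s, hs⟩ : ∃ s, (q1 * q2 * d).eval s ≠ 0 := by
    by_contra hcon
    push Not at hcon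
    exact e3 (Polynomial.funext fun s => by rw [hcon s, Polynomial.eval_zero])
  rw [Polynomial.eval_mul, Polynomial.eval_mul] at hs
  have hs1 := left_ne_zero_of_mul (left_ne_zero_of_mul hs)
  have hs2 := right_ne_zero_of_mul (left_ne_zero_of_mul hs)
  have hs3 := right_ne_zero_of_mul hs
  rw [hq1 s hs3, hc s hs3] at hs1
  rw [hq2 s hs3, hc s hs3] at hs2
  refine ⟨g * Pi.mulSingle i ((d.eval s)⁻¹ • M.map (Polynomial.eval s)), ?_, right_ne_zero_of_mul hs1, right_ne_zero_of_mul hs2⟩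
  refine mul_mem hg ?_
  rw [Submonoid.mem_pi]
  intro j _
  by_cases hj : j = i
  · subst hj
    rw [Pi.mulSingle_eq_same]
    exact h4 s hs3
  · rw [Pi.mulSingle_eq_of_ne hj]
    exact one_mem _

/-- monoids generated by elements on curves through `1` -/
structure CG {m : ℕ} (E : Submonoid (Matrix (Fin m) (Fin m) ℂ)) : Prop where
  gen : ∃ T : Set (Matrix (Fin m) (Fin m) ℂ), E = Submonoid.closure T ∧ ∀ τ ∈ T, Cu E τ
  inv : ∀ g ∈ E, ∃ g' ∈ E, g * g' = 1

/-- **Irreducibility.** -/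
theorem irr {E : ∀ i, Submonoid (Matrix (Fin (n i)) (Fin (n i)) ℂ)} (hE : ∀ i, CG (E i)) {σ : Type*} (S : Finset σ)
    {F : σ → MT n → ℂ} (hF : ∀ a ∈ S, IsPoly (F a)) (hne : ∀ a ∈ S, ∃ g, (∀ i, g i ∈ E i) ∧ F a g ≠ 0) :
    ∃ g, (∀ i, g i ∈ E i) ∧ ∀ a ∈ S, F a g ≠ 0 := by
  classical
  have hall : ∀ h : MT n, (∀ i, h i ∈ E i) → h ∈ good (Submonoid.pi Set.univ E) := by
    intro h hh
    refine Submonoid.pi_mem_of_mulSingle_mem h fun i => ?_
    obtain ⟨T, hT, hc⟩ := (hE i).gen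
    have h1 : E i ≤ (good (Submonoid.pi Set.univ E)).comap (MonoidHom.mulSingle (fun j => Matrix (Fin (n j)) (Fin (n j)) ℂ) i) := by
      conv_lhs => rw [hT]
      rw [Submonoid.closure_le]
      intro τ hτ
      exact good_curve E i (hc τ hτ)
    exact h1 (hh i)
  induction S using Finset.induction_on with
  | empty => exact ⟨1, fun i => one_mem _, fun a ha => absurd ha (Finset.notMem_empty a)⟩
  | insert a S ha ih =>
    obtain ⟨g, hg, hg0⟩ := ih (fun b hb => hF b (Finset.mem_insert_of_mem hb)) fun b hb => hne b (Finset.mem_insert_of_mem hb)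
    obtain ⟨h, hh, hh0⟩ := hne a (Finset.mem_insert_self _ _)
    choose gi hgi hgi1 using fun i => (hE i).inv (g i) (hg i)
    have h1 : g * (gi * h) = h := by
      funext i
      rw [Pi.mul_apply, Pi.mul_apply, ← mul_assoc, hgi1, one_mul]
    obtain ⟨g', hg', h2, h3⟩ := hall (gi * h) (fun i => mul_mem (hgi i) (hh i)) (fun x => ∏ b ∈ S, F b x) (F a)
      (IsPoly.prod S fun b hb => hF b (Finset.mem_insert_of_mem hb)) (hF a (Finset.mem_insert_self _ _)) g
      (by rw [Submonoid.mem_pi]; exact fun i _ => hg i) (Finset.prod_ne_zero_iff.2 hg0) (by rwa [h1])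
    rw [Submonoid.mem_pi] at hg'
    refine ⟨g', fun i => hg' i trivial, fun b hb => ?_⟩
    rcases Finset.mem_insert.1 hb with rfl | hb
    · exact h3
    · exact Finset.prod_ne_zero_iff.1 h2 b hb

end Run7.h893.DR
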