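import Mathlib

/-!
# Norms of polynomials with coefficients in a number field
-/

set_option autoImplicit false

open Matrix

namespace Run7.h893.DR

/-- the span of the powers `T ^ i`, `i ≤ j` -/
noncomputable def Vp (T : ℂ) (j : ℕ) : Submodule ℚ ℂ := Submodule.span ℚ (Set.range fun i : Fin (j + 1) => T ^ (i : ℕ))

lemma Vp_finite (T : ℂ) (j : ℕ) : Module.Finite ℚ (Vp T j) := by
  unfold Vp
  exact Module.Finite.span_of_finite ℚ (Set.finite_range _)

lemma Vp_rank (T : ℂ) (j : ℕ) : Module.finrank ℚ (Vp T j) ≤ j + 1 := by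
  unfold Vp
  refine (finrank_range_le_card _).trans ?_
  rw [Fintype.card_fin]

lemma Vp_mono (T : ℂ) {i j : ℕ} (h : i ≤ j) : Vp T i ≤ Vp T j := by
  unfold Vp
  refine Submodule.span_mono ?_
  rintro _ ⟨a, rfl⟩
  exact ⟨⟨a, by omega⟩, rfl⟩

lemma Vp_rat (T : ℂ) (j : ℕ) (q : ℚ) : (q : ℂ) ∈ Vp T j := by
  have h1 : (1 : ℂ) ∈ Vp T j := Submodule.subset_span ⟨⟨0, by omega⟩, by simp⟩
  have h2 := (Vp T j).smul_mem q h1
  rw [Algebra.smul_def, mul_one] at h2
  exact h2

lemma Vp_mul (T : ℂ) {i j : ℕ} {x y : ℂ} (hx : x ∈ Vp T i) (hy : y ∈ Vp T j) : x * y ∈ Vp T (i + j) := by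
  have h1 : x * y ∈ Vp T i * Vp T j := Submodule.mul_mem_mul hx hy
  refine (?_ : Vp T i * Vp T j ≤ Vp T (i + j)) h1
  unfold Vp
  rw [Submodule.span_mul_span, Submodule.span_le]
  rintro _ ⟨_, ⟨a, rfl⟩, _, ⟨b, rfl⟩, rfl⟩
  refine Submodule.subset_span ⟨⟨(a : ℕ) + b, by omega⟩, ?_⟩
  simp only
  rw [pow_add]

variable {X : Type*}

/-- polynomials with coefficients in `Vp T j` -/
def CV (T : ℂ) (j : ℕ) (p : MvPolynomial X ℂ) : Prop := ∀ s, p.coeff s ∈ Vp T j

lemma CV.add {T : ℂ} {j : ℕ} {p q : MvPolynomial X ℂ} (hp : CV T j p) (hq : CV T j q) : CV T j (p + q) := fun s => by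
  rw [MvPolynomial.coeff_add]
  exact (Vp T j).add_mem (hp s) (hq s)

lemma CV.zero {T : ℂ} {j : ℕ} : CV T j (0 : MvPolynomial X ℂ) := fun s => by
  rw [MvPolynomial.coeff_zero]
  exact (Vp T j).zero_mem

lemma CV.sum {T : ℂ} {j : ℕ} {ι : Type*} (S : Finset ι) {p : ι → MvPolynomial X ℂ} (h : ∀ i ∈ S, CV T j (p i)) :
    CV T j (∑ i ∈ S, p i) := fun s => by
  rw [MvPolynomial.coeff_sum]
  exact Submodule.sum_mem _ fun i hi => h i hi s

lemma CV.mul {T : ℂ} {i j : ℕ} {p q : MvPolynomial X ℂ} (hp : CV T i p) (hq : CV T j q) : CV T (i + j) (p * q) := fun s => by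
  classical
  rw [MvPolynomial.coeff_mul]
  exact Submodule.sum_mem _ fun x _ => Vp_mul T (hp _) (hq _)

lemma CV.one {T : ℂ} {j : ℕ} : CV T j (1 : MvPolynomial X ℂ) := fun s => by
  classical
  rw [MvPolynomial.coeff_one]
  split_ifs
  · exact_mod_cast Vp_rat T j 1
  · exact (Vp T j).zero_mem

lemma CV.prod {T : ℂ} {ι : Type*} (S : Finset ι) {p : ι → MvPolynomial X ℂ} (h : ∀ i ∈ S, CV T 1 (p i)) :
    CV T S.card (∏ i ∈ S, p i) := by
  classical
  induction S using Finset.induction_on with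
  | empty => exact CV.one
  | insert a S ha ih =>
    rw [Finset.prod_insert ha, Finset.card_insert_of_notMem ha, add_comm]
    exact (h a (Finset.mem_insert_self _ _)).mul (ih fun b hb => h b (Finset.mem_insert_of_mem hb))

lemma CV.of_rat {T : ℂ} {j : ℕ} (p : MvPolynomial X ℚ) : CV T j (MvPolynomial.map (algebraMap ℚ ℂ) p) := fun s => by
  rw [MvPolynomial.coeff_map]
  exact Vp_rat T j _

lemma CV.C {T : ℂ} {j : ℕ} {c : ℂ} (hc : c ∈ Vp T j) : CV T j (MvPolynomial.C c : MvPolynomial X ℂ) := fun s => by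
  classical
  rw [MvPolynomial.coeff_C]
  split_ifs
  · exact hc
  · exact (Vp T j).zero_mem

lemma CV.det {T : ℂ} {D : ℕ} {M : Matrix (Fin D) (Fin D) (MvPolynomial X ℂ)} (h : ∀ i j, CV T 1 (M i j)) : CV T D M.det := by
  rw [Matrix.det_apply']
  refine CV.sum _ fun τ _ => ?_
  have h1 := CV.prod (T := T) (Finset.univ : Finset (Fin D)) (p := fun i => M (τ i) i) fun i _ => h _ _
  rw [Finset.card_univ, Fintype.card_fin] at h1
  have h2 : CV T 0 (((Equiv.Perm.sign τ : ℤ)) : MvPolynomial X ℂ) := by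
    intro s
    have h3 : (((Equiv.Perm.sign τ : ℤ)) : MvPolynomial X ℂ) = MvPolynomial.C (((Equiv.Perm.sign τ : ℤ) : ℂ)) := by simp
    rw [h3]
    refine CV.C ?_ s
    have := Vp_rat T 0 ((Equiv.Perm.sign τ : ℤ) : ℚ)
    push_cast at this ⊢
    exact this
  have h4 := h2.mul h1
  rwa [zero_add] at h4

lemma deg_det {D r : ℕ} {M : Matrix (Fin D) (Fin D) (MvPolynomial X ℂ)} (h : ∀ i j, (M i j).totalDegree ≤ r) :
    M.det.totalDegree ≤ r * D := by
  rw [Matrix.det_apply']
  refine (MvPolynomial.totalDegree_finsetSum _ _).trans (Finset.sup_le fun τ _ => ?_)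
  refine (MvPolynomial.totalDegree_mul _ _).trans ?_
  have h3 : (((Equiv.Perm.sign τ : ℤ)) : MvPolynomial X ℂ) = MvPolynomial.C (((Equiv.Perm.sign τ : ℤ) : ℂ)) := by simp
  rw [h3, MvPolynomial.totalDegree_C, zero_add]
  refine (MvPolynomial.totalDegree_finset_prod _ _).trans ?_
  refine (Finset.sum_le_sum fun i _ => h _ _).trans ?_
  rw [Finset.sum_const, Finset.card_univ, Fintype.card_fin, smul_eq_mul, mul_comm]

/-- **Norms.** -/
theorem norm_exists {F : Type*} [Field F] [Algebra ℚ F] [FiniteDimensional ℚ F] {A W : Type*} [Fintype A] [Fintype W]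
    (α : A → F) (φ : W → ℚ) (T : ℂ) (m : A → W → MvPolynomial X ℚ) {r : ℕ} (hm : ∀ a b, (m a b).totalDegree ≤ r)
    (u : W → ℚ) : ∃ N : MvPolynomial X ℂ, N.totalDegree ≤ r * Module.finrank ℚ F ∧ CV T (Module.finrank ℚ F) N ∧
      ∀ x : X → ℂ, MvPolynomial.aeval x N =
        ∏ σ : F →ₐ[ℚ] ℂ, ∑ b, (u b : ℂ) * ((∑ a, σ (α a) * MvPolynomial.aeval x (m a b)) - T * (φ b : ℂ)) := by
  classical
  set D := Module.finrank ℚ F with hD
  let bas : Module.Basis (Fin D) ℚ F := Module.finBasis ℚ F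
  set M : Matrix (Fin D) (Fin D) (MvPolynomial X ℂ) := Matrix.of fun i j =>
    (∑ b, ∑ a, MvPolynomial.map (algebraMap ℚ ℂ) (MvPolynomial.C (u b * Algebra.leftMulMatrix bas (α a) i j) * m a b)) -
      (if i = j then MvPolynomial.C (T * ((∑ b, u b * φ b : ℚ) : ℂ)) else 0) with hM
  have hTmem : ∀ q : ℚ, T * (q : ℂ) ∈ Vp T 1 := by
    intro q
    have h1 : T ∈ Vp T 1 := Submodule.subset_span ⟨⟨1, by omega⟩, by simp⟩
    have h2 := (Vp T 1).smul_mem q h1
    rw [Algebra.smul_def, mul_comm] at h2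
    exact h2
  refine ⟨M.det, deg_det fun i j => ?_, CV.det fun i j => ?_, fun x => ?_⟩
  · rw [hM, Matrix.of_apply]
    refine (MvPolynomial.totalDegree_sub _ _).trans (max_le ?_ ?_)
    · refine (MvPolynomial.totalDegree_finsetSum _ _).trans (Finset.sup_le fun b _ => ?_)
      refine (MvPolynomial.totalDegree_finsetSum _ _).trans (Finset.sup_le fun a _ => ?_)
      refine le_trans (Finset.sup_mono (MvPolynomial.support_map_subset _ _)) ?_
      show (MvPolynomial.C (u b * Algebra.leftMulMatrix bas (α a) i j) * m a b).totalDegree ≤ r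
      refine (MvPolynomial.totalDegree_mul _ _).trans ?_
      rw [MvPolynomial.totalDegree_C, zero_add]
      exact hm a b
    · split_ifs
      · rw [MvPolynomial.totalDegree_C]
        exact Nat.zero_le _
      · rw [MvPolynomial.totalDegree_zero]
        exact Nat.zero_le _
  · rw [hM, Matrix.of_apply, sub_eq_add_neg]
    refine CV.add (CV.sum _ fun b _ => CV.sum _ fun a _ => CV.of_rat _) ?_
    split_ifs
    · rw [← map_neg]
      refine CV.C ?_
      exact (Vp T 1).neg_mem (hTmem _)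
    · rw [neg_zero]
      exact CV.zero
  · -- the value
    have hcard : Fintype.card (F →ₐ[ℚ] ℂ) = D := AlgHom.card ℚ F ℂ
    let e : Fin D ≃ (F →ₐ[ℚ] ℂ) := (Fintype.equivFinOfCardEq hcard).symm
    set E : Matrix (Fin D) (Fin D) ℂ := Matrix.of fun i j => e i (bas j) with hE
    have hEdet : E.det ≠ 0 := by
      have h1 := Algebra.discr_not_zero_of_basis ℚ bas
      have h2 := Algebra.discr_eq_det_embeddingsMatrixReindex_pow_two ℚ ℂ bas e
      intro h0
      apply h1
      have h3 : Algebra.embeddingsMatrixReindex ℚ ℂ bas e = E.transpose := by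
        ext i j
        rfl
      rw [h3, Matrix.det_transpose, h0] at h2
      have h4 : (algebraMap ℚ ℂ) (Algebra.discr ℚ bas) = 0 := by rw [h2]; ring
      exact (map_eq_zero _).1 h4
    set f : (F →ₐ[ℚ] ℂ) → ℂ := fun σ =>
      ∑ b, (u b : ℂ) * ((∑ a, σ (α a) * MvPolynomial.aeval x (m a b)) - T * (φ b : ℂ)) with hf
    set Mx : Matrix (Fin D) (Fin D) ℂ := M.map (MvPolynomial.aeval x) with hMx
    have hML : ∀ σ : F →ₐ[ℚ] ℂ, ∀ y : F, ∀ j, ∑ i, σ (bas i) * ((Algebra.leftMulMatrix bas y i j : ℚ) : ℂ) = σ y * σ (bas j) := by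
      intro σ y j
      rw [← map_mul]
      have h1 : y * bas j = ∑ i, Algebra.leftMulMatrix bas y i j • bas i := by
        have h2 := (bas.sum_repr (y * bas j)).symm
        rw [h2]
        refine Finset.sum_congr rfl fun i _ => ?_
        rw [Algebra.leftMulMatrix_eq_repr_mul]
      rw [h1, map_sum]
      refine Finset.sum_congr rfl fun i _ => ?_
      rw [map_smul, Algebra.smul_def, mul_comm]
      rfl
    have hEM : E * Mx = Matrix.diagonal (fun i => f (e i)) * E := by
      ext i j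
      rw [Matrix.mul_apply, Matrix.diagonal_mul]
      have h1 : ∀ l, Mx l j = (∑ b, ∑ a, ((u b : ℂ) * ((Algebra.leftMulMatrix bas (α a) l j : ℚ) : ℂ)) * MvPolynomial.aeval x (m a b)) -
          (if l = j then (T * ((∑ b, u b * φ b : ℚ) : ℂ)) else 0) := by
        intro l
        rw [hMx, Matrix.map_apply, hM, Matrix.of_apply, map_sub, map_sum]
        congr 1
        · refine Finset.sum_congr rfl fun b _ => ?_
          rw [map_sum]
          refine Finset.sum_congr rfl fun a _ => ?_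
          rw [map_mul, map_mul, MvPolynomial.map_C, MvPolynomial.aeval_C, MvPolynomial.aeval_map_algebraMap]
          congr 1
          simp
        · split_ifs
          · rw [MvPolynomial.aeval_C]
            rfl
          · rw [map_zero]
      have h2 : ∑ l, E i l * Mx l j = (∑ b, ∑ a, ((u b : ℂ) * MvPolynomial.aeval x (m a b)) *
          ∑ l, e i (bas l) * ((Algebra.leftMulMatrix bas (α a) l j : ℚ) : ℂ)) - e i (bas j) * (T * ((∑ b, u b * φ b : ℚ) : ℂ)) := by
        simp only [h1, mul_sub, Finset.sum_sub_distrib]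
        congr 1
        · simp only [Finset.mul_sum]
          rw [Finset.sum_comm]
          refine Finset.sum_congr rfl fun b _ => ?_
          rw [Finset.sum_comm]
          refine Finset.sum_congr rfl fun a _ => Finset.sum_congr rfl fun l _ => ?_
          rw [hE, Matrix.of_apply]
          ring
        · simp only [mul_ite, mul_zero, Finset.sum_ite_eq', Finset.mem_univ, if_true]
          rfl
      rw [h2]
      simp only [hML]
      rw [hf, hE, Matrix.of_apply]
      push_cast
      simp only [mul_sub, Finset.sum_sub_distrib, Finset.mul_sum, Finset.sum_mul, sub_mul]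
      congr 1
      · refine Finset.sum_congr rfl fun b _ => Finset.sum_congr rfl fun a _ => ?_
        ring
      · refine Finset.sum_congr rfl fun b _ => ?_
        ring
    have h5 : MvPolynomial.aeval x M.det = Mx.det := by
      rw [hMx]
      exact (MvPolynomial.aeval x : MvPolynomial X ℂ →ₐ[ℂ] ℂ).toRingHom.map_det M
    have h6 := congrArg Matrix.det hEM
    rw [Matrix.det_mul, Matrix.det_mul, Matrix.det_diagonal, mul_comm] at h6
    have h7 := mul_right_cancel₀ hEdet h6
    rw [h5, h7]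
    exact Equiv.prod_comp e f

end Run7.h893.DR
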