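import Pool.Agent.Run7.h893.DR.Comp
import Pool.Agent.Run7.h893.DR.Norm
import Pool.Agent.Run7.h893.HO.Fam

/-!
# From relations to de Rham-Betti classes
-/

set_option autoImplicit false

open Matrix Pool.Agent.Y119.HY
open Pool.Agent.Y119.HZ (Ix pv)

namespace Run7.h893.DR

/-! ### tensor powers of matrices -/

section tensor

variable {ι : Type*} [Fintype ι] [DecidableEq ι]

omit [DecidableEq ι] in
lemma tens_mul {r : ℕ} (P G : Matrix ι ι ℂ) (a b : Fin r → ι) :
    ∏ l, (P * G) (a l) (b l) = ∑ c : Fin r → ι, (∏ l, P (a l) (c l)) * ∏ l, G (c l) (b l) := by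
  classical
  simp only [Matrix.mul_apply]
  rw [Finset.prod_univ_sum, Fintype.piFinset_univ]
  exact Finset.sum_congr rfl fun c _ => Finset.prod_mul_distrib

lemma tens_inj {r : ℕ} {P G : Matrix ι ι ℂ} (h : P * G = 1) {x : (Fin r → ι) → ℂ}
    (hx : ∀ b : Fin r → ι, ∑ a, x a * ∏ l, P (a l) (b l) = 0) (a : Fin r → ι) : x a = 0 := by
  classical
  have h1 : ∑ b : Fin r → ι, (∑ c, x c * ∏ l, P (c l) (b l)) * ∏ l, G (b l) (a l) = x a := by
    simp only [Finset.sum_mul]
    rw [Finset.sum_comm]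
    have h2 : ∀ c : Fin r → ι, ∑ b : Fin r → ι, x c * (∏ l, P (c l) (b l)) * ∏ l, G (b l) (a l) = x c * (if c = a then 1 else 0) := by
      intro c
      rw [show (if c = a then (1 : ℂ) else 0) = ∏ l, (P * G) (c l) (a l) by
        rw [h]
        by_cases hca : c = a
        · subst hca
          simp
        · rw [if_neg hca]
          obtain ⟨l, hl⟩ := Function.ne_iff.1 hca
          exact (Finset.prod_eq_zero (Finset.mem_univ l) (by rw [Matrix.one_apply_ne hl])).symm]
      rw [tens_mul, Finset.mul_sum]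
      exact Finset.sum_congr rfl fun b _ => by ring
    rw [Finset.sum_congr rfl fun c _ => h2 c]
    simp
  rw [← h1]
  exact Finset.sum_eq_zero fun b _ => by rw [hx b, zero_mul]

end tensor

variable {k : ℕ} {n : Fin k → ℕ}

/-- the words -/
abbrev Wd (n : Fin k → ℕ) (r : ℕ) : Type := Fin r → Σ i, Fin (n i)

/-- the entry of the block diagonal matrix as a polynomial -/
noncomputable def ent (a b : Σ i, Fin (n i)) : MvPolynomial (Σ i : Fin k, Option (Fin (n i) × Fin (n i))) ℚ :=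
  if h : a.1 = b.1 then MvPolynomial.X ⟨b.1, some (h ▸ a.2, b.2)⟩ else 0

lemma ent_deg (a b : Σ i, Fin (n i)) : (ent a b).totalDegree ≤ 1 := by
  unfold ent
  split_ifs
  · rw [MvPolynomial.totalDegree_X]
  · rw [MvPolynomial.totalDegree_zero]
    exact Nat.zero_le _

/-- the monomials -/
noncomputable def mon {r : ℕ} (a b : Wd n r) : MvPolynomial (Σ i : Fin k, Option (Fin (n i) × Fin (n i))) ℚ :=
  ∏ l, ent (a l) (b l)

lemma mon_deg {r : ℕ} (a b : Wd n r) : (mon a b).totalDegree ≤ r := by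
  unfold mon
  refine (MvPolynomial.totalDegree_finsetProd _ _).trans ?_
  refine (Finset.sum_le_sum fun i _ => ent_deg _ _).trans ?_
  rw [Finset.sum_const, Finset.card_univ, Fintype.card_fin, smul_eq_mul, mul_one]

/-- the point -/
def ptt (l : Fin k → ℂ) (X : MT n) : (Σ i : Fin k, Option (Fin (n i) × Fin (n i))) → ℂ
  | ⟨i, none⟩ => l i
  | ⟨i, some p⟩ => X i p.1 p.2

lemma aeval_ent (l : Fin k → ℂ) (X : MT n) (a b : Σ i, Fin (n i)) :
    MvPolynomial.aeval (ptt l X) (ent a b) = Matrix.blockDiagonal' X a b := by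
  obtain ⟨i, a⟩ := a
  obtain ⟨j, b⟩ := b
  unfold ent
  by_cases h : i = j
  · subst h
    rw [Matrix.blockDiagonal'_apply_eq]
    simp only [dite_true, MvPolynomial.aeval_X]
    rfl
  · rw [Matrix.blockDiagonal'_apply_ne _ _ _ h]
    simp only [h, dite_false, map_zero]

lemma aeval_mon {r : ℕ} (l : Fin k → ℂ) (X : MT n) (a b : Wd n r) :
    MvPolynomial.aeval (ptt l X) (mon a b) = ∏ l, Matrix.blockDiagonal' X (a l) (b l) := by
  unfold mon
  rw [map_prod]
  exact Finset.prod_congr rfl fun l' _ => aeval_ent l X _ _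

lemma isPoly_ent (a b : Σ i, Fin (n i)) : IsPoly (n := n) fun X => Matrix.blockDiagonal' X a b := by
  obtain ⟨i, a⟩ := a
  obtain ⟨j, b⟩ := b
  by_cases h : i = j
  · subst h
    refine ⟨MvPolynomial.X ⟨i, (a, b)⟩, fun g => ?_⟩
    show Matrix.blockDiagonal' g ⟨i, a⟩ ⟨i, b⟩ = _
    rw [Matrix.blockDiagonal'_apply_eq, MvPolynomial.eval_X]
    rfl
  · refine ⟨0, fun g => ?_⟩
    show Matrix.blockDiagonal' g ⟨i, a⟩ ⟨j, b⟩ = _
    rw [Matrix.blockDiagonal'_apply_ne _ _ _ h, map_zero]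

lemma IsPoly.add' {F G : MT n → ℂ} (hF : IsPoly F) (hG : IsPoly G) : IsPoly fun g => F g + G g := by
  obtain ⟨f, hf⟩ := hF
  obtain ⟨h, hh⟩ := hG
  exact ⟨f + h, fun g => by show F g + G g = _; rw [hf, hh, map_add]⟩

lemma IsPoly.sum {σ : Type*} (S : Finset σ) {F : σ → MT n → ℂ} (h : ∀ a ∈ S, IsPoly (F a)) :
    IsPoly fun g => ∑ a ∈ S, F a g := by
  classical
  induction S using Finset.induction_on with
  | empty => simpa using IsPoly.const (n := n) 0
  | insert a S ha ih =>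
    have h1 := (h a (Finset.mem_insert_self _ _)).add' (ih fun b hb => h b (Finset.mem_insert_of_mem hb))
    simpa [Finset.sum_insert ha] using h1

/-- **Classes are invariant** if all relations over the powers of `T` hold on the torsor. -/
theorem invariant_of_relations {J : ∀ i, Matrix (Fin (n i)) (Fin (n i)) ℂ}
    {E : ∀ i, Submonoid (Matrix (Fin (n i)) (Fin (n i)) ℂ)} (hE : ∀ i, CG (E i)) {r d : ℕ} {T : ℂ} (hT : T ≠ 0)
    {Y Ω : MT n} {l₀ : Fin k → ℂ} (hY : ∀ i, ∃ G, Y i * Ω i * G = 1) (hΩ : ∀ i, (Ω i).det ≠ 0)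
    (hrel : ∀ P : MvPolynomial (Σ i : Fin k, Option (Fin (n i) × Fin (n i))) ℂ, P.totalDegree ≤ r * d →
      (∀ s, P.coeff s ∈ Vp T d) → MvPolynomial.aeval (ptt l₀ fun i => Y i * Ω i) P = 0 →
      ∀ h : MT n, (∀ i, h i ∈ E i) → MvPolynomial.aeval (ptt l₀ fun i => Y i * h i * Ω i) P = 0)
    (F : IntermediateField ℚ ℂ) (α : Wd n r → ℂ) (φ : Wd n r → ℚ) (hF : FiniteDimensional ℚ F)
    (hFd : Module.finrank ℚ F ≤ d) (hα : ∀ a, α a ∈ F)
    (hcl : ∀ b, T * (φ b : ℂ) = ∑ a, α a * ∏ l, Matrix.blockDiagonal' (fun i => Y i * Ω i) (a l) (b l))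
    (hmem : ∀ (i : Fin k) (g : Matrix (Fin (n i)) (Fin (n i)) ℂ), g.transpose * J i * g = J i → g.det = 1 → g ∈ E i)
    (g : MT n) (hg : ∀ i, (g i).transpose * ((Ω i).transpose * J i * Ω i) * g i = (Ω i).transpose * J i * Ω i)
    (hg1 : ∀ i, (g i).det = 1) (b : Wd n r) :
    ∑ c, (φ c : ℂ) * ∏ l, Matrix.blockDiagonal' g (c l) (b l) = φ b := by
  classical
  set α' : Wd n r → F := fun a => ⟨α a, hα a⟩ with hα'
  -- the values
  set xf : (F →ₐ[ℚ] ℂ) → Wd n r → MT n → ℂ := fun σ b X =>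
    (∑ a, σ (α' a) * ∏ l, Matrix.blockDiagonal' X (a l) (b l)) - T * (φ b : ℂ) with hxf
  -- the function of `h`
  have hpoly : ∀ (u : Wd n r → ℚ) (σ : F →ₐ[ℚ] ℂ), IsPoly fun h : MT n => ∑ b, (u b : ℂ) * xf σ b (Y * h * Ω) := by
    intro u σ
    have h1 : IsPoly fun X : MT n => ∑ b, (u b : ℂ) * xf σ b X := by
      refine IsPoly.sum _ fun b _ => (IsPoly.const _).mul ?_
      rw [hxf]
      simp only [sub_eq_add_neg]
      refine IsPoly.add' (IsPoly.sum _ fun a _ => (IsPoly.const _).mul (IsPoly.prod _ fun l _ => isPoly_ent _ _)) (IsPoly.const _)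
    exact h1.trans Y Ω
  -- the relations
  have hzero : ∀ u : Wd n r → ℚ, ∀ h : MT n, (∀ i, h i ∈ E i) → ∏ σ : F →ₐ[ℚ] ℂ, ∑ b, (u b : ℂ) * xf σ b (Y * h * Ω) = 0 := by
    intro u h hh
    obtain ⟨N, hN1, hN2, hN3⟩ := norm_exists (X := Σ i : Fin k, Option (Fin (n i) × Fin (n i))) α' φ T (fun a b => mon a b)
      (r := r) (fun a b => mon_deg a b) u
    have h1 : ∀ X : MT n, MvPolynomial.aeval (ptt l₀ X) N = ∏ σ : F →ₐ[ℚ] ℂ, ∑ b, (u b : ℂ) * xf σ b X := by
      intro X
      rw [hN3]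
      refine Finset.prod_congr rfl fun σ _ => Finset.sum_congr rfl fun b _ => ?_
      rw [hxf]
      simp only [aeval_mon]
    have h2 : MvPolynomial.aeval (ptt l₀ fun i => Y i * Ω i) N = 0 := by
      rw [h1]
      refine Finset.prod_eq_zero (Finset.mem_univ F.val) (Finset.sum_eq_zero fun b _ => ?_)
      have h3 : xf F.val b (fun i => Y i * Ω i) = 0 := by
        rw [hxf]
        simp only
        rw [hcl b, sub_eq_zero]
        exact Finset.sum_congr rfl fun a _ => rfl
      rw [h3, mul_zero]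
    have h3 := hrel N (hN1.trans (Nat.mul_le_mul_left _ hFd)) (fun s => Vp_mono T hFd (hN2 s)) h2 h hh
    rw [h1] at h3
    exact h3
  -- one embedding for each `u`
  have hone : ∀ u : Wd n r → ℚ, ∃ σ : F →ₐ[ℚ] ℂ, ∀ h : MT n, (∀ i, h i ∈ E i) → ∑ b, (u b : ℂ) * xf σ b (Y * h * Ω) = 0 := by
    intro u
    by_contra hcon
    push Not at hcon
    obtain ⟨h, hh, h0⟩ := irr hE (Finset.univ : Finset (F →ₐ[ℚ] ℂ)) (fun σ _ => hpoly u σ) fun σ _ => by
      obtain ⟨h, h1, h2⟩ := hcon σ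
      exact ⟨h, h1, h2⟩
    exact Finset.prod_ne_zero_iff.2 h0 (hzero u h hh)
  -- one embedding
  obtain ⟨σ, hσ⟩ : ∃ σ : F →ₐ[ℚ] ℂ, ∀ b, ∀ h : MT n, (∀ i, h i ∈ E i) → xf σ b (Y * h * Ω) = 0 := by
    let ν := Fintype.equivFin (Wd n r)
    choose f hf using fun c : ℕ => hone fun b => (c : ℚ) ^ (ν b : ℕ)
    obtain ⟨σ, hσ⟩ := Finite.exists_infinite_fiber f
    refine ⟨σ, fun b h hh => ?_⟩
    set q : Polynomial ℂ := ∑ b, Polynomial.C (xf σ b (Y * h * Ω)) * Polynomial.X ^ (ν b : ℕ) with hq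
    have h1 : q = 0 := by
      refine Polynomial.eq_zero_of_infinite_isRoot q ?_
      have h2 : (f ⁻¹' {σ}).Infinite := Set.infinite_coe_iff.1 hσ
      refine (h2.image (f := fun c : ℕ => (c : ℂ)) (fun a _ b _ hab => Nat.cast_injective hab)).mono ?_
      rintro _ ⟨c, hc, rfl⟩
      show q.eval (c : ℂ) = 0
      have h3 := hf c h hh
      rw [show f c = σ from hc] at h3
      rw [hq, Polynomial.eval_finsetSum, ← h3]
      refine Finset.sum_congr rfl fun b _ => ?_
      rw [Polynomial.eval_mul, Polynomial.eval_C, Polynomial.eval_pow, Polynomial.eval_X]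
      push_cast
      ring
    have h2 := congrArg (fun p => p.coeff (ν b : ℕ)) h1
    simp only [hq, Polynomial.finsetSum_coeff, Polynomial.coeff_C_mul, Polynomial.coeff_X_pow, Polynomial.coeff_zero] at h2
    rw [Finset.sum_eq_single b] at h2
    · simpa using h2
    · intro c _ hc
      rw [if_neg, mul_zero]
      intro h3
      exact hc (ν.injective (Fin.ext h3.symm))
    · intro h3
      exact absurd (Finset.mem_univ _) h3
  -- the embedding is the identity on the coefficients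
  choose G hG using hY
  have hPG : Matrix.blockDiagonal' (fun i => Y i * Ω i) * Matrix.blockDiagonal' G = 1 := by
    rw [← Matrix.blockDiagonal'_mul]
    have : (fun i => Y i * Ω i * G i) = fun i => (1 : Matrix (Fin (n i)) (Fin (n i)) ℂ) := funext hG
    rw [this]
    exact Matrix.blockDiagonal'_one
  have hfix : ∀ a, σ (α' a) = α a := by
    intro a
    have h1 := tens_inj (r := r) hPG (x := fun a => σ (α' a) - α a) (fun b => by
      have h2 := hσ b 1 (fun i => one_mem _)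
      rw [hxf] at h2
      simp only [mul_one] at h2
      have h3 : Y * Ω = fun i => Y i * Ω i := rfl
      rw [h3, hcl b] at h2
      simp only [sub_mul, Finset.sum_sub_distrib]
      exact h2) a
    exact sub_eq_zero.1 h1
  have hall : ∀ b, ∀ h : MT n, (∀ i, h i ∈ E i) →
      T * (φ b : ℂ) = ∑ a, α a * ∏ l, Matrix.blockDiagonal' (fun i => Y i * h i * Ω i) (a l) (b l) := by
    intro b h hh
    have h1 := hσ b h hh
    rw [hxf] at h1
    simp only [hfix] at h1
    exact (sub_eq_zero.1 h1).symm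
  -- the group
  have hΩu : ∀ i, IsUnit (Ω i).det := fun i => Ne.isUnit (hΩ i)
  set h : MT n := fun i => Ω i * g i * (Ω i)⁻¹ with hh
  have hhE : ∀ i, h i ∈ E i := by
    intro i
    refine hmem i _ ?_ ?_
    · have e1 : (Ω i)⁻¹.transpose * (Ω i).transpose = 1 := by
        rw [← Matrix.transpose_mul, Matrix.mul_nonsing_inv _ (hΩu i), Matrix.transpose_one]
      have e2 : Ω i * (Ω i)⁻¹ = 1 := Matrix.mul_nonsing_inv _ (hΩu i)
      calc (Ω i * g i * (Ω i)⁻¹).transpose * J i * (Ω i * g i * (Ω i)⁻¹)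
          = (Ω i)⁻¹.transpose * ((g i).transpose * ((Ω i).transpose * J i * Ω i) * g i) * (Ω i)⁻¹ := by
            rw [Matrix.transpose_mul, Matrix.transpose_mul]
            simp only [Matrix.mul_assoc]
        _ = ((Ω i)⁻¹.transpose * (Ω i).transpose) * J i * (Ω i * (Ω i)⁻¹) := by
            rw [hg i]
            simp only [Matrix.mul_assoc]
        _ = J i := by rw [e1, e2, one_mul, mul_one]
    · rw [Matrix.det_mul, Matrix.det_mul, hg1 i, mul_one, ← Matrix.det_mul, Matrix.mul_nonsing_inv _ (hΩu i), Matrix.det_one]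
  have hcomp : (fun i => Y i * h i * Ω i) = fun i => (Y i * Ω i) * g i := by
    funext i
    rw [hh]
    simp only
    calc Y i * (Ω i * g i * (Ω i)⁻¹) * Ω i = Y i * (Ω i * g i) * ((Ω i)⁻¹ * Ω i) := by simp only [Matrix.mul_assoc]
      _ = _ := by rw [Matrix.nonsing_inv_mul _ (hΩu i), mul_one, Matrix.mul_assoc]
  have hfin := hall b h hhE
  rw [hcomp] at hfin
  have hbd : Matrix.blockDiagonal' (fun i => (Y i * Ω i) * g i) =
      Matrix.blockDiagonal' (fun i => Y i * Ω i) * Matrix.blockDiagonal' g := Matrix.blockDiagonal'_mul _ _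
  rw [hbd] at hfin
  simp only [tens_mul, Finset.mul_sum] at hfin
  rw [Finset.sum_comm] at hfin
  have h5 : T * (∑ c, (φ c : ℂ) * ∏ l, Matrix.blockDiagonal' g (c l) (b l)) = T * φ b := by
    rw [hfin, Finset.mul_sum]
    refine Finset.sum_congr rfl fun c _ => ?_
    rw [← mul_assoc, hcl c, Finset.sum_mul]
    exact Finset.sum_congr rfl fun a _ => by ring
  exact mul_left_cancel₀ hT h5

end Run7.h893.DR
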